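import Pool.Agent.Q6.TY.All

/-!
# MP_78a2de_al : modulus bound for finite systems of sum and product equations

Every system of equations `x i = 1`, `x i + x j = x k`, `x i * x j = x k` in `n` unknowns which
contains an equation `x i = 1` and has only finitely many complex solutions has all its solutions
in the polydisc of radius `2 ^ (2 ^ (n - 2))`.
-/

namespace Pool.Agent.Results.MP_78a2de_al.SumProductBoundOne

/-- The set of the complex solutions of the system consisting of the equations `x i = 1` for
`i ∈ A`, `x i + x j = x k` for `(i, j, k) ∈ B` and `x i * x j = x k` for `(i, j, k) ∈ C`. -/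
def Solutions {n : ℕ} (A : Set (Fin n)) (B C : Set (Fin n × Fin n × Fin n)) :
    Set (Fin n → ℂ) :=
  {x | (∀ i ∈ A, x i = 1) ∧ (∀ e ∈ B, x e.1 + x e.2.1 = x e.2.2) ∧
    ∀ e ∈ C, x e.1 * x e.2.1 = x e.2.2}

/-- If a system contains an equation `x i = 1` and has only finitely many complex solutions, then
all of them satisfy `|x i| ≤ 2 ^ (2 ^ (n - 2))` (real exponents). -/
theorem result : ∀ (n : ℕ) (A : Set (Fin n)) (B C : Set (Fin n × Fin n × Fin n)), A.Nonempty →
    (Solutions A B C).Finite → ∀ x ∈ Solutions A B C, ∀ i,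
    ‖x i‖ ≤ (2 : ℝ) ^ ((2 : ℝ) ^ ((n : ℝ) - 2)) :=
  fun n A B C hA h x hx i => Pool.Agent.Q6.TY.bound_one' n A B C hA h x hx i

end Pool.Agent.Results.MP_78a2de_al.SumProductBoundOne
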